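import Pool.Agent.Q33.CG.Grp
import Pool.Agent.Y703.CT.Defs

/-!
# Finitely many points on `y² + D y = x³` give finitely many solutions of `X³ + Y³ = D`;
the solutions of `X³ + Y³ = D m³`
-/

set_option autoImplicit false

namespace Pool.Agent.Q33.CG

open Pool.Agent.Y703.CT (EQ WD Cls NoSplit Base)

theorem cube_inj {x y : ℚ} (h : x ^ 3 = y ^ 3) : x = y :=
  (Odd.strictMono_pow (R := ℚ) (n := 3) (by decide)).injective h

theorem wd_delta {D : ℕ} (hD : D ≠ 0) : (EQ (WD D)).Δ ≠ 0 := by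
  have hDq : (D : ℚ) ≠ 0 := by exact_mod_cast hD
  have e : (EQ (WD D)).Δ = -27 * (D : ℚ) ^ 4 := by
    simp only [EQ, WD, WeierstrassCurve.map, WeierstrassCurve.Δ, WeierstrassCurve.b₂,
      WeierstrassCurve.b₄, WeierstrassCurve.b₆, WeierstrassCurve.b₈]
    simp
    ring
  rw [e]
  exact mul_ne_zero (by norm_num) (pow_ne_zero 4 hDq)

theorem wd_nons {D : ℕ} (hD : D ≠ 0) {X Y : ℚ} (h : X ^ 3 + Y ^ 3 = D) :
    (EQ (WD D)).toAffine.Nonsingular (-(X * Y)) (-X ^ 3) := by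
  rw [← WeierstrassCurve.Affine.equation_iff_nonsingular_of_Δ_ne_zero (wd_delta hD),
    WeierstrassCurve.Affine.equation_iff]
  simp only [EQ, WD, WeierstrassCurve.map]
  simp
  linear_combination X ^ 3 * h

/-- finitely many solutions -/
theorem fin_sol {D : ℕ} (hD : D ≠ 0) (hf : Finite (EQ (WD D)).toAffine.Point) :
    {P : ℚ × ℚ | P.1 ^ 3 + P.2 ^ 3 = D}.Finite := by
  have hinj : Function.Injective (fun P : {P : ℚ × ℚ | P.1 ^ 3 + P.2 ^ 3 = D} =>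
      (WeierstrassCurve.Affine.Point.some _ _ (wd_nons hD P.2) : (EQ (WD D)).toAffine.Point)) := by
    rintro ⟨⟨X, Y⟩, h1⟩ ⟨⟨X', Y'⟩, h2⟩ h
    simp only [WeierstrassCurve.Affine.Point.some.injEq] at h
    obtain ⟨h3, h4⟩ := h
    have h1' : X ^ 3 + Y ^ 3 = D := h1
    have h2' : X' ^ 3 + Y' ^ 3 = D := h2
    have e1 : X = X' := cube_inj (by linarith)
    have e2 : Y = Y' := cube_inj (by linarith)
    subst e1
    subst e2
    rfl
  exact Finite.of_injective _ hinj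

/-- scaling -/
theorem scale {D : ℕ} {m A : ℤ} (hm : m ≠ 0) (hA : A = D * m ^ 3) {X Y : ℚ}
    (h : X ^ 3 + Y ^ 3 = A) : (X / m) ^ 3 + (Y / m) ^ 3 = D := by
  have hmq : (m : ℚ) ≠ 0 := by exact_mod_cast hm
  rw [div_pow, div_pow, ← add_div, h, hA, div_eq_iff (pow_ne_zero 3 hmq)]
  push_cast
  ring

/-- `A = m ^ 3` -/
theorem case_one {m A : ℤ} (hm : m ≠ 0) (hA : A = m ^ 3) :
    (∀ X Y : ℚ, X ^ 3 + Y ^ 3 = A ↔ (X, Y) = ((m : ℚ), (0 : ℚ)) ∨ (Y, X) = ((m : ℚ), (0 : ℚ))) ∧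
      Gens A {((m : ℚ), (0 : ℚ))} ∧ rk A = 1 := by
  have hA0 : A ≠ 0 := by rw [hA]; exact pow_ne_zero 3 hm
  have hmq : (m : ℚ) ≠ 0 := by exact_mod_cast hm
  have hall : ∀ X' Y' : ℚ, X' ^ 3 + Y' ^ 3 = A → (X' = m ∧ Y' = 0) ∨ (X' = 0 ∧ Y' = m) := by
    intro X' Y' h
    have h1 := scale (D := 1) hm (by rw [hA]; push_cast; ring) h
    rw [Nat.cast_one] at h1
    rcases sol_one h1 with ⟨h2, h3⟩ | ⟨h2, h3⟩
    · left
      rw [div_eq_iff hmq] at h2 h3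
      exact ⟨by linarith, by linarith⟩
    · right
      rw [div_eq_iff hmq] at h2 h3
      exact ⟨by linarith, by linarith⟩
  refine ⟨fun X Y => ⟨fun h => ?_, fun h => ?_⟩, gens_single hA0 (by rw [hA]; push_cast; ring) hall⟩
  · rcases hall X Y h with ⟨h1, h2⟩ | ⟨h1, h2⟩
    · left; rw [h1, h2]
    · right; rw [h1, h2]
  · rcases h with h | h
    · rw [Prod.mk.injEq] at h
      rw [h.1, h.2, hA]; push_cast; ring
    · rw [Prod.mk.injEq] at h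
      rw [h.1, h.2, hA]; push_cast; ring

/-- `A = 2 m ^ 3` -/
theorem case_two (hf : Finite (EQ (WD (2 : ℕ))).toAffine.Point) {m A : ℤ} (hm : m ≠ 0)
    (hA : A = 2 * m ^ 3) :
    (∀ X Y : ℚ, X ^ 3 + Y ^ 3 = A ↔ (X, Y) = ((m : ℚ), (m : ℚ)) ∨ (Y, X) = ((m : ℚ), (m : ℚ))) ∧
      Gens A {((m : ℚ), (m : ℚ))} ∧ rk A = 1 := by
  have hA0 : A ≠ 0 := by rw [hA]; exact mul_ne_zero two_ne_zero (pow_ne_zero 3 hm)
  have hmq : (m : ℚ) ≠ 0 := by exact_mod_cast hm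
  have hall : ∀ X' Y' : ℚ, X' ^ 3 + Y' ^ 3 = A → X' = m ∧ Y' = m := by
    intro X' Y' h
    have h1 := scale (D := 2) hm (by rw [hA]; push_cast; ring) h
    obtain ⟨h2, h3⟩ := sol_two (fin_sol two_ne_zero hf) (by rw [h1]; norm_num)
    rw [div_eq_iff hmq] at h2 h3
    exact ⟨by linarith, by linarith⟩
  refine ⟨fun X Y => ⟨fun h => ?_, fun h => ?_⟩, gens_single hA0 (by rw [hA]; push_cast; ring)
    fun X Y h => Or.inl (hall X Y h)⟩
  · obtain ⟨h1, h2⟩ := hall X Y h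
    left; rw [h1, h2]
  · rcases h with h | h
    · rw [Prod.mk.injEq] at h
      rw [h.1, h.2, hA]; push_cast; ring
    · rw [Prod.mk.injEq] at h
      rw [h.1, h.2, hA]; push_cast; ring

/-- the other numbers -/
theorem case_none {D : ℕ} (hB : Base D) (h1 : D ≠ 1) (h2 : D ≠ 2)
    (hf : Finite (EQ (WD D)).toAffine.Point) {m A : ℤ} (hm : m ≠ 0) (hA : A = D * m ^ 3) :
    (∀ X Y : ℚ, X ^ 3 + Y ^ 3 ≠ A) ∧ Gens A ∅ ∧ rk A = 0 := by
  have hA0 : A ≠ 0 := by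
    rw [hA]
    exact mul_ne_zero (by exact_mod_cast hB.1) (pow_ne_zero 3 hm)
  have h3 : ∀ X Y : ℚ, X ^ 3 + Y ^ 3 ≠ A := fun X Y h =>
    none_of_finite hB.1 h1 h2 hB.2.2 (fin_sol hB.1 hf) _ _ (scale hm hA h)
  exact ⟨h3, gens_empty hA0 h3⟩

end Pool.Agent.Q33.CG
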