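import Pool.Agent.Q33.CG.Dec
import Pool.Agent.Q33.CG.Fin
import Pool.Agent.Y703.CT.T1d

/-!
# The algorithm
-/

set_option autoImplicit false

namespace Pool.Agent.Q33.CG

open Pool.Agent.Y703.CT (EQ WD Cls NoSplit Base fin_all)

/-- the integer with the sign `e.1` (`true` for the minus sign) and the absolute value `e.2` -/
def val (e : Bool × ℕ) : ℤ := if e.1 then -(e.2 : ℤ) else e.2

/-- the cube root of `n`, if it exists -/
def c1 (n : ℕ) : ℕ := n.findGreatest fun c => c ^ 3 = n

/-- the cube root of `n / 2`, if it exists -/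
def c2 (n : ℕ) : ℕ := n.findGreatest fun c => 2 * c ^ 3 = n

/-- the cube-free part belongs to the class -/
def Hit (n : ℕ) : Prop := ∃ m < n + 1, ∃ D < n + 1, D * m ^ 3 = n ∧ Good D

open Classical in
/-- the algorithm -/
noncomputable def alg (e : Bool × ℕ) : Option (List ((Bool × ℕ) × (Bool × ℕ))) :=
  if c1 e.2 ^ 3 = e.2 then some [((e.1, c1 e.2), (false, 0))]
  else if 2 * c2 e.2 ^ 3 = e.2 then some [((e.1, c2 e.2), (e.1, c2 e.2))]
  else if Hit e.2 then some [] else none

theorem pc1 : Primrec c1 := by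
  unfold c1
  refine Primrec.nat_findGreatest Primrec.id ?_
  exact PrimrecPred.primrecRel (peq (pcube Primrec.snd) Primrec.fst)

theorem pc2 : Primrec c2 := by
  unfold c2
  refine Primrec.nat_findGreatest Primrec.id ?_
  exact PrimrecPred.primrecRel (peq (pmul (Primrec.const 2) (pcube Primrec.snd)) Primrec.fst)

theorem phit {α : Type} [Primcodable α] {f : α → ℕ} (hf : Primrec f) :
    PrimrecPred fun a => Hit (f a) := by
  unfold Hit
  refine pe (p := fun a m => ∃ D < f a + 1, D * m ^ 3 = f a ∧ Good D) (psucc hf) ?_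
  refine pe (p := fun (z : α × ℕ) D => D * z.2 ^ 3 = f z.1 ∧ Good D)
    (psucc (hf.comp Primrec.fst)) ?_
  exact (peq (pmul Primrec.snd (pcube (Primrec.snd.comp Primrec.fst)))
    (hf.comp (Primrec.fst.comp Primrec.fst))).and (pgood Primrec.snd)

open Classical in
theorem alg_comp : Computable alg := by
  refine Primrec.to_comp ?_
  unfold alg
  have h1 : Primrec fun e : Bool × ℕ => c1 e.2 := pc1.comp Primrec.snd
  have h2 : Primrec fun e : Bool × ℕ => c2 e.2 := pc2.comp Primrec.snd
  refine Primrec.ite (peq (pcube h1) Primrec.snd) ?_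
    (Primrec.ite (peq (pmul (Primrec.const 2) (pcube h2)) Primrec.snd) ?_
      (Primrec.ite (phit Primrec.snd) (Primrec.const _) (Primrec.const _)))
  · exact Primrec.option_some.comp (Primrec.list_cons.comp
      ((Primrec.fst.pair h1).pair (Primrec.const _)) (Primrec.const _))
  · exact Primrec.option_some.comp (Primrec.list_cons.comp
      ((Primrec.fst.pair h2).pair (Primrec.fst.pair h2)) (Primrec.const _))

theorem good_two : Good 2 := by
  refine ⟨⟨two_ne_zero, by norm_num, fun p hp hpp hd => ?_⟩, ⟨by norm_num, by norm_num⟩,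
    ⟨2, by norm_num, Nat.prime_two, by norm_num, dvd_rfl, fun p hp hpp hd hne => ?_⟩, ?_⟩
  · have h3 := Nat.le_of_dvd (by norm_num) hd
    have h4 : 2 ^ 3 ≤ p ^ 3 := Nat.pow_le_pow_left hpp.two_le 3
    omega
  · exact absurd ((Nat.prime_dvd_prime_iff_eq hpp Nat.prime_two).1 hd) hne
  · intro a ha b hb c hc hsp
    have h := hsp.1
    unfold Tr
    interval_cases a <;> interval_cases b <;> interval_cases c <;> omega

theorem fin_of_good {D : ℕ} (h : Good D) : Finite (EQ (WD D)).toAffine.Point := by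
  obtain ⟨h1, h2⟩ := (good_iff D).1 h
  obtain ⟨-, f, -, u, -, -, -, h3⟩ := fin_all h1
  exact (h3.2 h2).1

theorem val_cube (s : Bool) (c : ℕ) : val (s, c ^ 3) = val (s, c) ^ 3 := by
  unfold val
  cases s <;> simp
  ring

theorem val_mul (s : Bool) (D c : ℕ) : val (s, D * c) = D * val (s, c) := by
  unfold val
  cases s <;> simp

theorem val_ne {e : Bool × ℕ} : val e ≠ 0 ↔ e.2 ≠ 0 := by
  unfold val
  rcases e with ⟨s, n⟩
  cases s <;> simp

theorem val_abs (e : Bool × ℕ) : (val e).natAbs = e.2 := by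
  unfold val
  rcases e with ⟨s, n⟩
  cases s <;> simp

/-- the point with the coordinates `val p.1` and `val p.2` -/
def pt (p : (Bool × ℕ) × (Bool × ℕ)) : ℚ × ℚ := ((val p.1 : ℚ), (val p.2 : ℚ))

/-- the output is correct -/
theorem alg_sound {e : Bool × ℕ} {L : List ((Bool × ℕ) × (Bool × ℕ))} (he : val e ≠ 0)
    (h : alg e = some L) :
    (∀ X Y : ℚ, X ^ 3 + Y ^ 3 = val e ↔ (X, Y) ∈ L.map pt ∨ (Y, X) ∈ L.map pt) ∧
      Gens (val e) {P | P ∈ L.map pt} ∧ rk (val e) = L.length := by
  obtain ⟨s, n⟩ := e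
  have hn : n ≠ 0 := val_ne.1 he
  unfold alg at h
  simp only at h
  split_ifs at h with k1 k2 k3
  · have hc : c1 n ≠ 0 := by
      intro h0
      rw [h0] at k1
      exact hn (by rw [← k1]; norm_num)
    have hA : val (s, n) = val (s, c1 n) ^ 3 := by
      conv_lhs => rw [← k1]
      exact val_cube s _
    obtain ⟨h0, h1, h2⟩ := case_one (val_ne.2 hc) hA
    rw [Option.some.injEq] at h
    subst h
    have e0 : val (false, 0) = 0 := rfl
    refine ⟨fun X Y => (h0 X Y).trans (by simp [pt, e0]), ?_, h2⟩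
    have e1 : {P : ℚ × ℚ | P ∈ List.map pt [((s, c1 n), (false, 0))]} =
        {((val (s, c1 n) : ℚ), (0 : ℚ))} := by
      ext P
      simp [pt, val]
    rw [e1]
    exact h1
  · have hc : c2 n ≠ 0 := by
      intro h0
      rw [h0] at k2
      exact hn (by rw [← k2]; norm_num)
    have hA : val (s, n) = 2 * val (s, c2 n) ^ 3 := by
      conv_lhs => rw [← k2]
      rw [val_mul, val_cube]
      norm_num
    obtain ⟨h0, h1, h2⟩ := case_two (fin_of_good good_two) (val_ne.2 hc) hA
    rw [Option.some.injEq] at h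
    subst h
    refine ⟨fun X Y => (h0 X Y).trans (by simp [pt]), ?_, h2⟩
    have e1 : {P : ℚ × ℚ | P ∈ List.map pt [((s, c2 n), (s, c2 n))]} =
        {((val (s, c2 n) : ℚ), (val (s, c2 n) : ℚ))} := by
      ext P
      simp [pt]
    rw [e1]
    exact h1
  · obtain ⟨m, hm, D, hD, hDm, hG⟩ := k3
    have hm0 : m ≠ 0 := by
      rintro rfl
      exact hn (by rw [← hDm]; norm_num)
    have hA : val (s, n) = D * val (s, m) ^ 3 := by
      rw [← hDm, val_mul, val_cube]
    have hB : Base D := ((good_iff D).1 hG).1.1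
    have hD1 : D ≠ 1 := by
      rintro rfl
      apply k1
      have : m ^ 3 = n := by rw [← hDm]; ring
      exact Nat.findGreatest_spec (P := fun c => c ^ 3 = n) (Nat.le_of_lt_succ hm) this
    have hD2 : D ≠ 2 := by
      rintro rfl
      apply k2
      exact Nat.findGreatest_spec (P := fun c => 2 * c ^ 3 = n) (Nat.le_of_lt_succ hm) hDm
    obtain ⟨h0, h1, h2⟩ := case_none hB hD1 hD2 (fin_of_good hG) (val_ne.2 hm0) hA
    rw [Option.some.injEq] at h
    subst h
    refine ⟨fun X Y => ⟨fun h => absurd h (h0 X Y), fun h => by simp at h⟩, ?_, h2⟩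
    have e1 : {P : ℚ × ℚ | P ∈ List.map pt []} = ∅ := by
      ext P
      simp
    rw [e1]
    exact h1

/-- the algorithm answers for all numbers `D m ^ 3` with `D` equal to `1` or in the class -/
theorem alg_answers {e : Bool × ℕ} {D : ℕ} {m : ℤ} (hm : m ≠ 0)
    (hD : D = 1 ∨ (Cls D ∧ NoSplit D)) (h : val e = D * m ^ 3) : (alg e).isSome := by
  have hn : e.2 = D * m.natAbs ^ 3 := by
    rw [← val_abs e, h, Int.natAbs_mul, Int.natAbs_pow, Int.natAbs_natCast]
  have hm0 : 1 ≤ m.natAbs := by omega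
  unfold alg
  split_ifs with k1 k2 k3
  · rfl
  · rfl
  · rfl
  exfalso
  rcases hD with rfl | hD
  · apply k1
    refine Nat.findGreatest_spec (P := fun c => c ^ 3 = e.2) (m := m.natAbs) ?_ ?_
    · rw [hn, one_mul]
      exact Nat.le_self_pow three_ne_zero _
    · rw [hn, one_mul]
  · apply k3
    have hG := (good_iff D).2 hD
    have hD0 : 1 ≤ D := Nat.one_le_iff_ne_zero.2 hG.1.1
    refine ⟨m.natAbs, ?_, D, ?_, hn.symm, hG⟩
    · rw [hn, Nat.lt_succ_iff]
      calc m.natAbs ≤ m.natAbs ^ 3 := Nat.le_self_pow three_ne_zero _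
        _ = 1 * m.natAbs ^ 3 := (one_mul _).symm
        _ ≤ D * m.natAbs ^ 3 := Nat.mul_le_mul_right _ hD0
    · rw [hn, Nat.lt_succ_iff]
      exact Nat.le_mul_of_pos_right _ (pow_pos hm0 3)

/-- the class contains `2` -/
theorem two_mem : Cls 2 ∧ NoSplit 2 := (good_iff 2).1 good_two

end Pool.Agent.Q33.CG
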