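import Pool.Agent.Q33.CG.Alg
import Pool.Agent.Y703.CX.Fin

/-!
# How many numbers are covered
-/

set_option autoImplicit false

open scoped Classical

namespace Pool.Agent.Q33.CG

open Pool.Agent.Y703.CT (Cls NoSplit)

theorem cls_low : ∃ c : ℝ, 0 < c ∧ ∃ X₀ : ℕ, ∀ X : ℕ, X₀ ≤ X →
    c * X / Real.sqrt (Real.log X) ≤
      (((Finset.Icc 1 X).filter fun N => Squarefree N ∧ Cls N).card : ℝ) := by
  obtain ⟨c, X₀, hc, h⟩ := Pool.Agent.Y461.CX.t_LOW Pool.Agent.Y87.CX.t_MER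
    Pool.Agent.Y461.CX.t_CHE
  refine ⟨c, hc, X₀, fun X hX => ?_⟩
  have h1 := h X hX
  have e2 := Pool.Agent.Y710.CX.card_eq X (fun _ => True) (fun _ => True) fun _ _ _ => Iff.rfl
  have e3 : ((Finset.Icc 1 X).filter fun N => Squarefree N ∧ Cls N).card =
      (Pool.Agent.Y703.CX.SS X).card := by
    simpa using e2
  rw [e3]
  refine le_trans (le_of_eq ?_) h1
  rw [div_eq_mul_inv, Real.sqrt_eq_rpow, ← Real.rpow_neg (Real.log_natCast_nonneg X)]

theorem prop_low : ∃ X₀ : ℕ, ∀ X : ℕ, X₀ ≤ X →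
    (56 / 100 : ℝ) * (((Finset.Icc 1 X).filter fun D => Squarefree D ∧ Cls D).card : ℝ) ≤
      (((Finset.Icc 1 X).filter fun D => Squarefree D ∧ Cls D ∧ NoSplit D).card : ℝ) := by
  have hden := Pool.Agent.Y703.CX.t_DEN
  have hc : (56 / 100 : ℝ) < Pool.Agent.Y703.CX.c3 := by
    have := Pool.Agent.Y461.CX.t_C3.2.2.2
    norm_num at this ⊢
    exact this
  unfold Pool.Agent.Y703.CX.S_DEN at hden
  have h1 := hden.eventually (lt_mem_nhds hc)
  rw [Filter.eventually_atTop] at h1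
  obtain ⟨X₀, h2⟩ := h1
  refine ⟨X₀, fun X hX => ?_⟩
  have h3 := h2 X hX
  rcases Nat.eq_zero_or_pos ((Finset.Icc 1 X).filter fun D => Squarefree D ∧ Cls D).card with
    h4 | h4
  · rw [h4, Nat.cast_zero, mul_zero]
    exact Nat.cast_nonneg _
  · have h5 : (0 : ℝ) < (((Finset.Icc 1 X).filter fun D => Squarefree D ∧ Cls D).card : ℝ) := by
      exact_mod_cast h4
    exact ((lt_div_iff₀ h5).1 h3).le

/-- the algorithm answers for at least `56` percent of the class -/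
theorem main : ∃ φ : Bool × ℕ → Option (List ((Bool × ℕ) × (Bool × ℕ))), Computable φ ∧
    (∀ e L, val e ≠ 0 → φ e = some L →
      (∀ X Y : ℚ, X ^ 3 + Y ^ 3 = val e ↔ (X, Y) ∈ L.map pt ∨ (Y, X) ∈ L.map pt) ∧
      Gens (val e) {P | P ∈ L.map pt} ∧ rk (val e) = L.length) ∧
    (∀ e (D : ℕ) (m : ℤ), m ≠ 0 → (D = 1 ∨ (Cls D ∧ NoSplit D)) → val e = D * m ^ 3 →
      (φ e).isSome) ∧
    ∃ c : ℝ, 0 < c ∧ ∃ X₀ : ℕ, ∀ X : ℕ, X₀ ≤ X →
      c * X / Real.sqrt (Real.log X) ≤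
        (((Finset.Icc 1 X).filter fun D => Squarefree D ∧ Cls D).card : ℝ) ∧
      (56 / 100 : ℝ) * (((Finset.Icc 1 X).filter fun D => Squarefree D ∧ Cls D).card : ℝ) ≤
        (((Finset.Icc 1 X).filter fun D => Squarefree D ∧ Cls D ∧
          (φ (false, D)).isSome).card : ℝ) := by
  obtain ⟨c, hc, X₁, h1⟩ := cls_low
  obtain ⟨X₂, h2⟩ := prop_low
  refine ⟨alg, alg_comp, fun e L => alg_sound, fun e D m => alg_answers, c, hc, max X₁ X₂,
    fun X hX => ⟨h1 X (le_trans (le_max_left _ _) hX), ?_⟩⟩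
  refine le_trans (h2 X (le_trans (le_max_right _ _) hX)) ?_
  rw [Nat.cast_le]
  refine Finset.card_le_card fun D hD => ?_
  rw [Finset.mem_filter] at hD ⊢
  refine ⟨hD.1, hD.2.1, hD.2.2.1, ?_⟩
  refine alg_answers (m := 1) one_ne_zero (Or.inr hD.2.2) ?_
  unfold val
  simp

end Pool.Agent.Q33.CG
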