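import Mathlib
import Pool.Agent.Y703.CT.Defs

/-!
# The class of the numbers `D` is decided by a primitive recursive procedure
-/

set_option autoImplicit false

namespace Pool.Agent.Q33.CG

open Pool.Agent.Y703.CT (Cls NoSplit Base)

section gen

variable {α : Type} [Primcodable α]

theorem pf {p : α → ℕ → Prop} {f : α → ℕ} (hf : Primrec f)
    (hp : PrimrecPred fun z : α × ℕ => p z.1 z.2) : PrimrecPred fun a => ∀ b < f a, p a b := by
  have hp' : PrimrecRel p := PrimrecPred.primrecRel hp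
  exact ((hp'.swap.forall_mem_list).comp (Primrec.list_range.comp hf) Primrec.id).of_eq
    (by simp [Function.swap])

theorem pe {p : α → ℕ → Prop} {f : α → ℕ} (hf : Primrec f)
    (hp : PrimrecPred fun z : α × ℕ => p z.1 z.2) : PrimrecPred fun a => ∃ b < f a, p a b := by
  have hp' : PrimrecRel p := PrimrecPred.primrecRel hp
  exact ((hp'.swap.exists_mem_list).comp (Primrec.list_range.comp hf) Primrec.id).of_eq
    (by simp [Function.swap])

theorem pimp {p q : α → Prop} (hp : PrimrecPred p) (hq : PrimrecPred q) :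
    PrimrecPred fun a => p a → q a :=
  (hp.not.or hq).of_eq fun a => by tauto

theorem pdvd {f g : α → ℕ} (hf : Primrec f) (hg : Primrec g) :
    PrimrecPred fun a => f a ∣ g a :=
  (Primrec.eq.comp (Primrec.nat_mod.comp hg hf) (Primrec.const 0)).of_eq fun _ =>
    (Nat.dvd_iff_mod_eq_zero ..).symm

theorem peq {f g : α → ℕ} (hf : Primrec f) (hg : Primrec g) : PrimrecPred fun a => f a = g a :=
  Primrec.eq.comp hf hg

theorem psucc {f : α → ℕ} (hf : Primrec f) : Primrec fun a => f a + 1 := Primrec.succ.comp hf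

theorem pmul {f g : α → ℕ} (hf : Primrec f) (hg : Primrec g) : Primrec fun a => f a * g a :=
  Primrec.nat_mul.comp hf hg

theorem pmod {f g : α → ℕ} (hf : Primrec f) (hg : Primrec g) : Primrec fun a => f a % g a :=
  Primrec.nat_mod.comp hf hg

theorem pcube {f : α → ℕ} (hf : Primrec f) : Primrec fun a => f a ^ 3 :=
  (pmul (pmul hf hf) hf).of_eq fun a => by ring

theorem psq {f : α → ℕ} (hf : Primrec f) : Primrec fun a => f a ^ 2 :=
  (pmul hf hf).of_eq fun a => by ring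

theorem pprime {f : α → ℕ} (hf : Primrec f) : PrimrecPred fun a => (f a).Prime := by
  refine (PrimrecPred.and (Primrec.nat_le.comp (Primrec.const 2) hf)
    (pf (p := fun a m => m ∣ f a → m = 1) hf
      (pimp (pdvd Primrec.snd (hf.comp Primrec.fst)) (peq Primrec.snd (Primrec.const 1))))).of_eq
    fun a => ?_
  exact Nat.prime_def_lt.symm

end gen

/-- `t` is a cube modulo the primes dividing `n` -/
def Cb (n t : ℕ) : Prop := ∀ p < n + 1, p.Prime → p ∣ n → ∃ x < p, t % p = x ^ 3 % p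

/-- coprime -/
def Cp (a b : ℕ) : Prop := ∀ p < a + 1, p ∣ a → p ∣ b → p = 1

/-- the three conditions of the splitting -/
def Spl (D a b c : ℕ) : Prop := a * b * c = D ∧ (Cp a b ∧ (Cp a c ∧ (Cp b c ∧ (Cb a (b * c ^ 2) ∧
  (Cb b (c * a ^ 2) ∧ Cb c (a * b ^ 2))))))

/-- the conclusion -/
def Tr (a b c : ℕ) : Prop := (b = 1 ∧ c = 1) ∨ ((a = 1 ∧ c = 1) ∨ (a = 1 ∧ b = 1))

/-- the class, with bounded quantifiers -/
def Good (D : ℕ) : Prop :=
  (D ≠ 0 ∧ (¬ 3 ∣ D ∧ ∀ p < D + 1, p.Prime → ¬ p ^ 3 ∣ D)) ∧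
  ((D % 9 ≠ 1 ∧ D % 9 ≠ 8) ∧
  ((∃ q < D + 1, q.Prime ∧ (q % 3 = 2 ∧ (q ∣ D ∧ ∀ p < D + 1, p.Prime → p ∣ D → p ≠ q →
    p % 3 = 1))) ∧
  ∀ a < D + 1, ∀ b < D + 1, ∀ c < D + 1, Spl D a b c → Tr a b c))

section

variable {α : Type} [Primcodable α]

theorem pcb {f g : α → ℕ} (hf : Primrec f) (hg : Primrec g) :
    PrimrecPred fun a => Cb (f a) (g a) := by
  refine pf (p := fun a p => p.Prime → p ∣ f a → ∃ x < p, g a % p = x ^ 3 % p) (psucc hf) ?_
  refine pimp (pprime Primrec.snd) (pimp (pdvd Primrec.snd (hf.comp Primrec.fst)) ?_)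
  refine pe (p := fun (z : α × ℕ) x => g z.1 % z.2 = x ^ 3 % z.2) Primrec.snd ?_
  exact peq (pmod (hg.comp (Primrec.fst.comp Primrec.fst)) (Primrec.snd.comp Primrec.fst))
    (pmod (pcube Primrec.snd) (Primrec.snd.comp Primrec.fst))

theorem pcp {f g : α → ℕ} (hf : Primrec f) (hg : Primrec g) :
    PrimrecPred fun a => Cp (f a) (g a) := by
  refine pf (p := fun a p => p ∣ f a → p ∣ g a → p = 1) (psucc hf) ?_
  exact pimp (pdvd Primrec.snd (hf.comp Primrec.fst)) (pimp (pdvd Primrec.snd (hg.comp Primrec.fst))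
    (peq Primrec.snd (Primrec.const 1)))

theorem pspl {f g h k : α → ℕ} (hf : Primrec f) (hg : Primrec g) (hh : Primrec h)
    (hk : Primrec k) : PrimrecPred fun a => Spl (f a) (g a) (h a) (k a) := by
  unfold Spl
  exact (peq (pmul (pmul hg hh) hk) hf).and ((pcp hg hh).and ((pcp hg hk).and ((pcp hh hk).and
    ((pcb hg (pmul hh (psq hk))).and ((pcb hh (pmul hk (psq hg))).and
      (pcb hk (pmul hg (psq hh))))))))

theorem ptr {g h k : α → ℕ} (hg : Primrec g) (hh : Primrec h)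
    (hk : Primrec k) : PrimrecPred fun a => Tr (g a) (h a) (k a) := by
  unfold Tr
  have h1 := Primrec.const (α := α) (1 : ℕ)
  exact ((peq hh h1).and (peq hk h1)).or (((peq hg h1).and (peq hk h1)).or
    ((peq hg h1).and (peq hh h1)))

theorem pgood {f : α → ℕ} (hf : Primrec f) : PrimrecPred fun a => Good (f a) := by
  unfold Good
  refine PrimrecPred.and (PrimrecPred.and (peq hf (Primrec.const 0)).not
    (PrimrecPred.and (pdvd (Primrec.const 3) hf).not ?_)) (PrimrecPred.and (PrimrecPred.and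
      (peq (pmod hf (Primrec.const 9)) (Primrec.const 1)).not
      (peq (pmod hf (Primrec.const 9)) (Primrec.const 8)).not) (PrimrecPred.and ?_ ?_))
  · refine pf (p := fun a p => p.Prime → ¬ p ^ 3 ∣ f a) (psucc hf) ?_
    exact pimp (pprime Primrec.snd) (pdvd (pcube Primrec.snd) (hf.comp Primrec.fst)).not
  · refine pe (p := fun a q => q.Prime ∧ (q % 3 = 2 ∧ (q ∣ f a ∧ ∀ p < f a + 1, p.Prime →
      p ∣ f a → p ≠ q → p % 3 = 1))) (psucc hf) ?_
    refine (pprime Primrec.snd).and ((peq (pmod Primrec.snd (Primrec.const 3))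
      (Primrec.const 2)).and ((pdvd Primrec.snd (hf.comp Primrec.fst)).and ?_))
    refine pf (p := fun (z : α × ℕ) p => p.Prime → p ∣ f z.1 → p ≠ z.2 → p % 3 = 1)
      (psucc (hf.comp Primrec.fst)) ?_
    exact pimp (pprime Primrec.snd) (pimp (pdvd Primrec.snd (hf.comp
      (Primrec.fst.comp Primrec.fst))) (pimp (peq Primrec.snd (Primrec.snd.comp Primrec.fst)).not
        (peq (pmod Primrec.snd (Primrec.const 3)) (Primrec.const 1))))
  · refine pf (p := fun x a => ∀ b < f x + 1, ∀ c < f x + 1, Spl (f x) a b c → Tr a b c)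
      (psucc hf) ?_
    refine pf (p := fun (x : α × ℕ) b => ∀ c < f x.1 + 1, Spl (f x.1) x.2 b c → Tr x.2 b c)
      (psucc (hf.comp Primrec.fst)) ?_
    refine pf (p := fun (x : (α × ℕ) × ℕ) c => Spl (f x.1.1) x.1.2 x.2 c → Tr x.1.2 x.2 c)
      (psucc (hf.comp (Primrec.fst.comp Primrec.fst))) ?_
    have h1 : Primrec fun x : ((α × ℕ) × ℕ) × ℕ => x.1.1.2 :=
      Primrec.snd.comp (Primrec.fst.comp Primrec.fst)
    have h2 : Primrec fun x : ((α × ℕ) × ℕ) × ℕ => x.1.2 := Primrec.snd.comp Primrec.fst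
    have h3 : Primrec fun x : ((α × ℕ) × ℕ) × ℕ => x.2 := Primrec.snd
    have h4 : Primrec fun x : ((α × ℕ) × ℕ) × ℕ => f x.1.1.1 :=
      hf.comp (Primrec.fst.comp (Primrec.fst.comp Primrec.fst))
    exact pimp (pspl h4 h1 h2 h3) (ptr h1 h2 h3)

end

theorem cp_iff {a b : ℕ} (ha : a ≠ 0) : Cp a b ↔ a.Coprime b := by
  constructor
  · intro h
    exact h _ (Nat.lt_succ_of_le (Nat.le_of_dvd (Nat.pos_of_ne_zero ha) (Nat.gcd_dvd_left a b)))
      (Nat.gcd_dvd_left a b) (Nat.gcd_dvd_right a b)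
  · intro h p _ h1 h2
    have h3 := Nat.dvd_gcd h1 h2
    rw [h] at h3
    exact Nat.dvd_one.1 h3

theorem cb_iff {n t : ℕ} (hn : n ≠ 0) : Cb n t ↔
    ∀ p : ℕ, p.Prime → p ∣ n → ∃ x : ℤ, (p : ℤ) ∣ (t : ℤ) - x ^ 3 := by
  constructor
  · intro h p hp hpn
    obtain ⟨x, -, hx⟩ := h p (Nat.lt_succ_of_le (Nat.le_of_dvd (Nat.pos_of_ne_zero hn) hpn)) hp hpn
    refine ⟨x, ?_⟩
    have h1 : (x : ℤ) ^ 3 ≡ (t : ℤ) [ZMOD p] := by
      have h2 : x ^ 3 ≡ t [MOD p] := hx.symm
      exact_mod_cast (Int.natCast_modEq_iff.2 h2)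
    exact h1.dvd
  · intro h p _ hp hpn
    obtain ⟨x, hx⟩ := h p hp hpn
    have hp0 : (p : ℤ) ≠ 0 := by exact_mod_cast hp.ne_zero
    have h1 : 0 ≤ x % p := Int.emod_nonneg x hp0
    have h2 : x % p < p := Int.emod_lt_of_pos x (by exact_mod_cast hp.pos)
    refine ⟨(x % p).toNat, by omega, ?_⟩
    have h3 : (((x % p).toNat : ℕ) : ℤ) ≡ x [ZMOD p] := by
      rw [Int.toNat_of_nonneg h1]
      exact Int.mod_modEq x p
    have h4 : x ^ 3 ≡ (t : ℤ) [ZMOD p] := Int.modEq_iff_dvd.2 hx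
    have h5 : ((((x % p).toNat : ℕ) ^ 3 : ℕ) : ℤ) ≡ ((t : ℕ) : ℤ) [ZMOD p] := by
      push_cast
      exact (h3.pow 3).trans h4
    exact (Int.natCast_modEq_iff.1 h5).symm

theorem good_iff (D : ℕ) : Good D ↔ Cls D ∧ NoSplit D := by
  constructor
  · rintro ⟨⟨h0, h3, hcf⟩, ⟨h1, h8⟩, ⟨q, -, hq, hq3, hqD, hall⟩, hS⟩
    have hpos := Nat.pos_of_ne_zero h0
    refine ⟨⟨⟨h0, h3, fun p hp hd => ?_⟩, h1, h8, q, hq, hq3, hqD, fun p hp hpD hne =>
      hall p (Nat.lt_succ_of_le (Nat.le_of_dvd hpos hpD)) hp hpD hne⟩, ?_⟩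
    · have hpD : p ∣ D := (dvd_pow_self p three_ne_zero).trans hd
      exact hcf p (Nat.lt_succ_of_le (Nat.le_of_dvd hpos hpD)) hp hd
    · intro d hd hcop hcb
      have h012 : d 0 * d 1 * d 2 = D := by
        rw [← hd]
        exact (Fin.prod_univ_three (f := d)).symm
      have ha0 : d 0 ≠ 0 := by
        intro h
        rw [h, zero_mul, zero_mul] at h012
        exact h0 h012.symm
      have hb0 : d 1 ≠ 0 := by
        intro h
        rw [h, mul_zero, zero_mul] at h012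
        exact h0 h012.symm
      have hc0 : d 2 ≠ 0 := by
        intro h
        rw [h, mul_zero] at h012
        exact h0 h012.symm
      have ka : d 0 < D + 1 := Nat.lt_succ_of_le (Nat.le_of_dvd hpos
        ⟨d 1 * d 2, by rw [← h012]; ring⟩)
      have kb : d 1 < D + 1 := Nat.lt_succ_of_le (Nat.le_of_dvd hpos
        ⟨d 0 * d 2, by rw [← h012]; ring⟩)
      have kc : d 2 < D + 1 := Nat.lt_succ_of_le (Nat.le_of_dvd hpos
        ⟨d 0 * d 1, by rw [← h012]; ring⟩)
      have hsp : Spl D (d 0) (d 1) (d 2) := by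
        refine ⟨h012, (cp_iff ha0).2 (hcop 0 1 (by decide)), (cp_iff ha0).2 (hcop 0 2 (by decide)),
          (cp_iff hb0).2 (hcop 1 2 (by decide)), (cb_iff ha0).2 fun p hp hpd => ?_,
          (cb_iff hb0).2 fun p hp hpd => ?_, (cb_iff hc0).2 fun p hp hpd => ?_⟩
        · obtain ⟨x, hx⟩ := hcb 0 p hp hpd
          exact ⟨x, by push_cast; exact hx⟩
        · obtain ⟨x, hx⟩ := hcb 1 p hp hpd
          exact ⟨x, by push_cast; exact hx⟩
        · obtain ⟨x, hx⟩ := hcb 2 p hp hpd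
          exact ⟨x, by push_cast; exact hx⟩
      rcases hS _ ka _ kb _ kc hsp with ⟨e1, e2⟩ | ⟨e1, e2⟩ | ⟨e1, e2⟩
      · refine ⟨0, fun c hc => ?_⟩
        fin_cases c
        · exact absurd rfl hc
        · exact e1
        · exact e2
      · refine ⟨1, fun c hc => ?_⟩
        fin_cases c
        · exact e1
        · exact absurd rfl hc
        · exact e2
      · refine ⟨2, fun c hc => ?_⟩
        fin_cases c
        · exact e1
        · exact e2
        · exact absurd rfl hc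
  · rintro ⟨⟨⟨h0, h3, hcf⟩, h1, h8, q, hq, hq3, hqD, hall⟩, hN⟩
    have hpos := Nat.pos_of_ne_zero h0
    refine ⟨⟨h0, h3, fun p _ hp hd => hcf p hp hd⟩, ⟨h1, h8⟩, ⟨q,
      Nat.lt_succ_of_le (Nat.le_of_dvd hpos hqD), hq, hq3, hqD, fun p _ hp hpD hne =>
        hall p hp hpD hne⟩, ?_⟩
    intro a _ b _ c _ hsp
    obtain ⟨habc, c1, c2, c3, k1, k2, k3⟩ := hsp
    have ha0 : a ≠ 0 := by
      rintro rfl
      rw [zero_mul, zero_mul] at habc
      exact h0 habc.symm
    have hb0 : b ≠ 0 := by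
      rintro rfl
      rw [mul_zero, zero_mul] at habc
      exact h0 habc.symm
    have hc0 : c ≠ 0 := by
      rintro rfl
      rw [mul_zero] at habc
      exact h0 habc.symm
    rw [cp_iff ha0] at c1 c2
    rw [cp_iff hb0] at c3
    rw [cb_iff ha0] at k1
    rw [cb_iff hb0] at k2
    rw [cb_iff hc0] at k3
    let d : ZMod 3 → ℕ := ![a, b, c]
    have hprod : ∏ i, d i = D := by
      rw [← habc]
      exact Fin.prod_univ_three (f := d)
    obtain ⟨e, he⟩ := hN d hprod (by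
      intro i j hij
      fin_cases i <;> fin_cases j
      · exact absurd rfl hij
      · exact c1
      · exact c2
      · exact c1.symm
      · exact absurd rfl hij
      · exact c3
      · exact c2.symm
      · exact c3.symm
      · exact absurd rfl hij) (by
      intro i p hp hpd
      fin_cases i
      · obtain ⟨x, hx⟩ := k1 p hp hpd
        exact ⟨x, by push_cast at hx; exact hx⟩
      · obtain ⟨x, hx⟩ := k2 p hp hpd
        exact ⟨x, by push_cast at hx; exact hx⟩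
      · obtain ⟨x, hx⟩ := k3 p hp hpd
        exact ⟨x, by push_cast at hx; exact hx⟩)
    have n10 : (1 : ZMod 3) ≠ 0 := by decide
    have n20 : (2 : ZMod 3) ≠ 0 := by decide
    have n21 : (2 : ZMod 3) ≠ 1 := by decide
    fin_cases e
    · exact Or.inl ⟨he 1 n10, he 2 n20⟩
    · exact Or.inr (Or.inl ⟨he 0 n10.symm, he 2 n21⟩)
    · exact Or.inr (Or.inr ⟨he 0 n20.symm, he 1 n21.symm⟩)

end Pool.Agent.Q33.CG
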