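import Mathlib

/-!
# The equation `X ^ 3 + Y ^ 3 = D`: a solution gives a solution with a larger denominator
-/

set_option autoImplicit false

namespace Pool.Agent.Q33.CG

/-- the difference of the cubes of two coprime nonzero numbers -/
theorem seven_le {x y : ℤ} (hx : x ≠ 0) (hy : y ≠ 0) (h1 : x ≠ y) (h2 : x ≠ -y) :
    7 ≤ |x ^ 3 - y ^ 3| := by
  have e : x ^ 3 - y ^ 3 = (x - y) * (x ^ 2 + x * y + y ^ 2) := by ring
  rw [e, abs_mul]
  have hq : 0 ≤ x ^ 2 + x * y + y ^ 2 := by nlinarith [sq_nonneg (x + y), sq_nonneg x, sq_nonneg y]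
  rw [abs_of_nonneg hq]
  have hd : 1 ≤ |x - y| := Int.one_le_abs (sub_ne_zero.2 h1)
  have hs : 1 ≤ |x + y| := Int.one_le_abs (fun h => h2 (by linarith))
  have hx1 : 1 ≤ |x| := Int.one_le_abs hx
  have hy1 : 1 ≤ |y| := Int.one_le_abs hy
  have e1 : 4 * (x ^ 2 + x * y + y ^ 2) = |x - y| ^ 2 + 3 * |x + y| ^ 2 := by
    rw [sq_abs, sq_abs]; ring
  have e2 : 2 * (|x| ^ 2 + |y| ^ 2) = |x - y| ^ 2 + |x + y| ^ 2 := by
    rw [sq_abs, sq_abs, sq_abs, sq_abs]; ring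
  -- parity: |x - y| and |x + y| have the same parity
  have hpar : (|x + y| - |x - y|) % 2 = 0 := by
    rcases abs_cases (x + y) with ⟨h, -⟩ | ⟨h, -⟩ <;> rcases abs_cases (x - y) with ⟨h', -⟩ | ⟨h', -⟩ <;>
      rw [h, h'] <;> omega
  have hmax : |x - y| + |x + y| = 2 * max |x| |y| := by
    rcases abs_cases (x + y) with ⟨h, -⟩ | ⟨h, -⟩ <;> rcases abs_cases (x - y) with ⟨h', -⟩ | ⟨h', -⟩ <;>
      rcases abs_cases x with ⟨h3, -⟩ | ⟨h3, -⟩ <;> rcases abs_cases y with ⟨h4, -⟩ | ⟨h4, -⟩ <;>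
      rw [h, h', h3, h4] <;> omega
  have hmax2 : 2 ≤ max |x| |y| := by
    by_contra hcon
    push Not at hcon
    have h3 : |x| ≤ 1 := by
      have := le_max_left |x| |y|
      omega
    have h4 : |y| ≤ 1 := by
      have := le_max_right |x| |y|
      omega
    rcases abs_cases x with ⟨h5, -⟩ | ⟨h5, -⟩ <;> rcases abs_cases y with ⟨h6, -⟩ | ⟨h6, -⟩ <;>
      omega
  set u := |x - y| with hu
  set v := |x + y| with hv
  have huv : 4 ≤ u + v := by omega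
  have h5 : 28 ≤ u * (u ^ 2 + 3 * v ^ 2) := by
    rcases lt_or_ge u 2 with h | h
    · have hu1 : u = 1 := by omega
      rw [hu1]
      have : 3 ≤ v := by omega
      nlinarith
    · rcases lt_or_ge u 3 with h' | h'
      · have hu2 : u = 2 := by omega
        rw [hu2]
        have : 2 ≤ v := by omega
        nlinarith
      · nlinarith [sq_nonneg v]
  nlinarith

/-- the greatest common divisor of the new coordinates divides `3` -/
theorem dvd_three {x y k : ℤ} (hxy : IsCoprime x y) (h1 : k ∣ x * (x ^ 3 + 2 * y ^ 3))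
    (h2 : k ∣ y * (2 * x ^ 3 + y ^ 3)) : k ∣ 3 := by
  have hkx : IsCoprime k x := by
    rw [Int.isCoprime_iff_gcd_eq_one]
    by_contra hne
    obtain ⟨p, hp, hpd⟩ := Nat.exists_prime_and_dvd hne
    have hpk : (p : ℤ) ∣ k := (Int.natCast_dvd_natCast.2 hpd).trans (Int.gcd_dvd_left ..)
    have hpx : (p : ℤ) ∣ x := (Int.natCast_dvd_natCast.2 hpd).trans (Int.gcd_dvd_right ..)
    have hp' : Prime (p : ℤ) := Nat.prime_iff_prime_int.1 hp
    have hpy : (p : ℤ) ∣ y := by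
      have h3 := hpk.trans h2
      rcases hp'.dvd_or_dvd h3 with h | h
      · exact h
      · have h4 : (p : ℤ) ∣ y ^ 3 := by
          have h5 : (p : ℤ) ∣ 2 * x ^ 3 := ((hpx.pow three_ne_zero)).mul_left 2
          exact (dvd_add_right h5).1 h
        exact hp'.dvd_of_dvd_pow h4
    exact hp'.not_isUnit (hxy.isUnit_of_dvd' hpx hpy)
  have hky : IsCoprime k y := by
    rw [Int.isCoprime_iff_gcd_eq_one]
    by_contra hne
    obtain ⟨p, hp, hpd⟩ := Nat.exists_prime_and_dvd hne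
    have hpk : (p : ℤ) ∣ k := (Int.natCast_dvd_natCast.2 hpd).trans (Int.gcd_dvd_left ..)
    have hpy : (p : ℤ) ∣ y := (Int.natCast_dvd_natCast.2 hpd).trans (Int.gcd_dvd_right ..)
    have hp' : Prime (p : ℤ) := Nat.prime_iff_prime_int.1 hp
    have hpx : (p : ℤ) ∣ x := by
      have h3 := hpk.trans h1
      rcases hp'.dvd_or_dvd h3 with h | h
      · exact h
      · have h4 : (p : ℤ) ∣ x ^ 3 := by
          have h5 : (p : ℤ) ∣ 2 * y ^ 3 := ((hpy.pow three_ne_zero)).mul_left 2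
          exact (dvd_add_left h5).1 h
        exact hp'.dvd_of_dvd_pow h4
    exact hp'.not_isUnit (hxy.isUnit_of_dvd' hpx hpy)
  have h3 : k ∣ x ^ 3 + 2 * y ^ 3 := hkx.dvd_of_dvd_mul_left h1
  have h4 : k ∣ 2 * x ^ 3 + y ^ 3 := hky.dvd_of_dvd_mul_left h2
  have h5 : k ∣ 3 * x ^ 3 := by
    have : 3 * x ^ 3 = 2 * (2 * x ^ 3 + y ^ 3) - (x ^ 3 + 2 * y ^ 3) := by ring
    rw [this]
    exact dvd_sub (h4.mul_left 2) h3
  exact (hkx.pow_right (n := 3)).dvd_of_dvd_mul_right h5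

/-- the denominators of the coordinates of a solution are equal -/
theorem den_eq {X Y : ℚ} {D : ℤ} (h : X ^ 3 + Y ^ 3 = D) : X.den = Y.den := by
  have h1 : Y ^ 3 = D - X ^ 3 := by linarith
  have h2 : (Y ^ 3).den = (X ^ 3).den := by
    rw [h1, show (D : ℚ) - X ^ 3 = -(X ^ 3) + (D : ℤ) by ring]
    rw [Rat.add_intCast_den, Rat.neg_den]
  rw [Rat.den_pow, Rat.den_pow] at h2
  exact (Nat.pow_left_injective (n := 3) (by norm_num) h2).symm

/-- `-2` is not the cube of a rational number -/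
theorem two_cube (a b : ℤ) (hb : b ≠ 0) : (a : ℚ) ^ 3 + 2 * (b : ℚ) ^ 3 ≠ 0 := by
  intro h8
  have hbq : (b : ℚ) ≠ 0 := by exact_mod_cast hb
  have haq : (a : ℚ) ≠ 0 := by
    intro h0
    rw [h0] at h8
    apply pow_ne_zero 3 hbq
    linarith
  have h9 : (a : ℚ) ^ 3 = 2 * (-b : ℚ) ^ 3 := by linear_combination h8
  have h10 := congrArg (padicValRat 2) h9
  rw [padicValRat.mul two_ne_zero (pow_ne_zero 3 (neg_ne_zero.2 hbq)),
    padicValRat.pow, padicValRat.pow] at h10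
  have h11 : padicValRat 2 (2 : ℚ) = 1 := by
    have := padicValRat.self (p := 2) one_lt_two
    exact_mod_cast this
  rw [h11] at h10
  omega

/-- a solution of `X ^ 3 + Y ^ 3 = D` with `X`, `Y` different and not zero gives one with a larger
denominator -/
theorem grow {D : ℤ} (hD : D ≠ 0) (hcf : ∀ p : ℕ, p.Prime → ¬ ((p : ℤ) ^ 3 ∣ D)) {X Y : ℚ}
    (h : X ^ 3 + Y ^ 3 = D) (hX : X ≠ 0) (hY : Y ≠ 0) (hne : X ≠ Y) :
    ∃ X' Y' : ℚ, X' ^ 3 + Y' ^ 3 = D ∧ X' ≠ 0 ∧ Y' ≠ 0 ∧ X' ≠ Y' ∧ X.den < X'.den := by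
  have hden := den_eq h
  obtain ⟨z, hz⟩ : ∃ z : ℕ, z = X.den := ⟨_, rfl⟩
  obtain ⟨x, hx⟩ : ∃ x : ℤ, x = X.num := ⟨_, rfl⟩
  obtain ⟨y, hy⟩ : ∃ y : ℤ, y = Y.num := ⟨_, rfl⟩
  have hz0 : (z : ℚ) ≠ 0 := by
    rw [hz]
    exact_mod_cast X.den_ne_zero
  have hXe : X = x / z := by rw [hx, hz]; exact (Rat.num_div_den X).symm
  have hYe : Y = y / z := by rw [hy, hz, hden]; exact (Rat.num_div_den Y).symm
  have hx0 : x ≠ 0 := by rw [hx]; exact Rat.num_ne_zero.2 hX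
  have hy0 : y ≠ 0 := by rw [hy]; exact Rat.num_ne_zero.2 hY
  have hxz : IsCoprime x (z : ℤ) := by
    rw [hx, hz, Int.isCoprime_iff_gcd_eq_one]
    exact X.reduced
  have heq : x ^ 3 + y ^ 3 = D * (z : ℤ) ^ 3 := by
    have h1 : (x : ℚ) ^ 3 + (y : ℚ) ^ 3 = D * (z : ℚ) ^ 3 := by
      rw [← h, hXe, hYe]
      field_simp
    exact_mod_cast h1
  have hxy : IsCoprime x y := by
    rw [Int.isCoprime_iff_gcd_eq_one]
    by_contra hne
    obtain ⟨p, hp, hpd⟩ := Nat.exists_prime_and_dvd hne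
    have hpx : (p : ℤ) ∣ x := (Int.natCast_dvd_natCast.2 hpd).trans (Int.gcd_dvd_left ..)
    have hpy : (p : ℤ) ∣ y := (Int.natCast_dvd_natCast.2 hpd).trans (Int.gcd_dvd_right ..)
    have h3 : (p : ℤ) ^ 3 ∣ D * (z : ℤ) ^ 3 := by
      rw [← heq]
      exact dvd_add (pow_dvd_pow_of_dvd hpx 3) (pow_dvd_pow_of_dvd hpy 3)
    have h4 : IsCoprime ((p : ℤ) ^ 3) ((z : ℤ) ^ 3) :=
      IsCoprime.pow (hxz.of_isCoprime_of_dvd_left hpx)
    exact hcf p hp (h4.dvd_of_dvd_mul_right h3)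
  have hne1 : x ≠ y := by
    rintro rfl
    exact hne (by rw [hXe, hYe])
  have hne2 : x ≠ -y := by
    intro h5
    apply hD
    have h6 : D * (z : ℤ) ^ 3 = 0 := by rw [← heq, h5]; ring
    rcases mul_eq_zero.1 h6 with h7 | h7
    · exact h7
    · exfalso
      have := pow_eq_zero_iff (three_ne_zero) |>.1 h7
      apply hz0
      exact_mod_cast this
  have h7 := seven_le hx0 hy0 hne1 hne2
  have hd0 : x ^ 3 - y ^ 3 ≠ 0 := by
    intro h8
    rw [h8] at h7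
    norm_num at h7
  have hd0q : (x : ℚ) ^ 3 - (y : ℚ) ^ 3 ≠ 0 := by exact_mod_cast hd0
  -- the new point
  obtain ⟨X', hX'⟩ : ∃ X' : ℚ, X' = x * (x ^ 3 + 2 * y ^ 3) / (z * (x ^ 3 - y ^ 3)) := ⟨_, rfl⟩
  obtain ⟨Y', hY'⟩ : ∃ Y' : ℚ, Y' = -(y * (2 * x ^ 3 + y ^ 3)) / (z * (x ^ 3 - y ^ 3)) := ⟨_, rfl⟩
  have heqq : (x : ℚ) ^ 3 + (y : ℚ) ^ 3 = D * (z : ℚ) ^ 3 := by exact_mod_cast heq
  have hnew : X' ^ 3 + Y' ^ 3 = D := by
    rw [hX', hY', div_pow, div_pow, ← add_div, div_eq_iff (pow_ne_zero _ (mul_ne_zero hz0 hd0q))]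
    have e : ((x : ℚ) * (x ^ 3 + 2 * y ^ 3)) ^ 3 + (-(y * (2 * x ^ 3 + y ^ 3)) : ℚ) ^ 3 =
        ((x : ℚ) ^ 3 + y ^ 3) * (x ^ 3 - y ^ 3) ^ 3 := by ring
    rw [e, heqq]
    ring
  have hxq : (x : ℚ) ≠ 0 := by exact_mod_cast hx0
  have hyq : (y : ℚ) ≠ 0 := by exact_mod_cast hy0
  have hnc : ∀ a b : ℤ, b ≠ 0 → (a : ℚ) ^ 3 + 2 * (b : ℚ) ^ 3 ≠ 0 := two_cube
  have hX'0 : X' ≠ 0 := by
    rw [hX']
    refine div_ne_zero (mul_ne_zero hxq ?_) (mul_ne_zero hz0 hd0q)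
    exact hnc x y hy0
  have hY'0 : Y' ≠ 0 := by
    rw [hY']
    refine div_ne_zero (neg_ne_zero.2 (mul_ne_zero hyq ?_)) (mul_ne_zero hz0 hd0q)
    have := hnc y x hx0
    rw [add_comm] at this
    exact this
  have hne' : X' ≠ Y' := by
    intro h8
    rw [hX', hY', div_left_inj' (mul_ne_zero hz0 hd0q)] at h8
    have h9 : (x : ℤ) * (x ^ 3 + 2 * y ^ 3) = -(y * (2 * x ^ 3 + y ^ 3)) := by exact_mod_cast h8
    have h10 : (x ^ 2 + y ^ 2 + x * y) ^ 2 = 3 * (x * y) ^ 2 := by linear_combination h9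
    have h11 : ((x ^ 2 + y ^ 2 + x * y : ℤ) : ℚ) ^ 2 = 3 * ((x * y : ℤ) : ℚ) ^ 2 := by exact_mod_cast h10
    have h12 : ((x * y : ℤ) : ℚ) ≠ 0 := by exact_mod_cast mul_ne_zero hx0 hy0
    have h13 : (((x ^ 2 + y ^ 2 + x * y : ℤ) : ℚ) / ((x * y : ℤ) : ℚ)) ^ 2 = 3 := by
      rw [div_pow, h11, mul_div_assoc, div_self (pow_ne_zero 2 h12), mul_one]
    have h14 : ¬ IsSquare (3 : ℚ) := by
      intro h15
      have : IsSquare ((3 : ℕ) : ℚ) := by exact_mod_cast h15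
      rw [Rat.isSquare_natCast_iff] at this
      obtain ⟨r, hr⟩ := this
      have : r ≤ 1 := by nlinarith
      interval_cases r <;> omega
    exact h14 ⟨_, by rw [← h13, sq]⟩
  refine ⟨X', Y', hnew, hX'0, hY'0, hne', ?_⟩
  -- the denominator
  have hden' := den_eq hnew
  obtain ⟨N, hN⟩ : ∃ N : ℤ, N = (z : ℤ) * (x ^ 3 - y ^ 3) := ⟨_, rfl⟩
  have hNq : (N : ℚ) = z * (x ^ 3 - y ^ 3) := by rw [hN]; push_cast; ring
  have hNX : (N : ℚ) * X' = ((x * (x ^ 3 + 2 * y ^ 3) : ℤ) : ℚ) := by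
    rw [hX', hNq, mul_div_cancel₀ _ (mul_ne_zero hz0 hd0q)]
    push_cast
    ring
  have hNY : (N : ℚ) * Y' = ((-(y * (2 * x ^ 3 + y ^ 3)) : ℤ) : ℚ) := by
    rw [hY', hNq, mul_div_cancel₀ _ (mul_ne_zero hz0 hd0q)]
    push_cast
    ring
  have hdvd : ∀ (W : ℚ) (a : ℤ), (N : ℚ) * W = a → ((W.den : ℤ) ∣ N ∧
      ∀ k : ℤ, N = W.den * k → a = W.num * k) := by
    intro W a hW
    have hWd : (W.den : ℚ) ≠ 0 := by exact_mod_cast W.den_ne_zero
    have h8 : N * W.num = a * W.den := by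
      have h9 : (N : ℚ) * W.num = a * W.den := by
        rw [← hW]
        have := Rat.mul_den_eq_num W
        rw [mul_assoc, this]
      exact_mod_cast h9
    have h10 : IsCoprime (W.den : ℤ) W.num := by
      rw [Int.isCoprime_iff_gcd_eq_one, Int.gcd_comm]
      exact W.reduced
    refine ⟨h10.dvd_of_dvd_mul_right (by rw [h8]; exact dvd_mul_left _ _), fun k hk => ?_⟩
    rw [hk] at h8
    have h11 : (W.den : ℤ) ≠ 0 := by exact_mod_cast W.den_ne_zero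
    apply mul_left_cancel₀ h11
    linear_combination -h8
  obtain ⟨⟨k, hk⟩, hak⟩ := hdvd X' _ hNX
  have ha := hak k hk
  have hb := (hdvd Y' _ hNY).2 k (by rw [← hden']; exact hk)
  have hk3 : k ∣ 3 := by
    refine dvd_three hxy ⟨X'.num, by rw [ha]; ring⟩ ?_
    rw [← dvd_neg]
    exact ⟨Y'.num, by rw [hb]; ring⟩
  have hk3' : |k| ≤ 3 := Int.le_of_dvd (by norm_num) ((abs_dvd k 3).2 hk3)
  have hNabs : |N| = z * |x ^ 3 - y ^ 3| := by
    rw [hN, abs_mul, Nat.abs_cast]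
  have hkabs : |N| = X'.den * |k| := by
    rw [hk, abs_mul, Nat.abs_cast]
  have hzpos : 0 < (z : ℤ) := by
    rw [hz]
    exact_mod_cast X.den_pos
  have hX'pos : 0 < (X'.den : ℤ) := by exact_mod_cast X'.den_pos
  have hfin : (z : ℤ) < X'.den := by nlinarith
  rw [← hz]
  exact_mod_cast hfin

end Pool.Agent.Q33.CG
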