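import Pool.Agent.Q33.CG.Triv
import Mathlib.AlgebraicGeometry.EllipticCurve.Affine.Point

/-!
# The group of the rational points of `X ^ 3 + Y ^ 3 = A` and its generating sets
-/

set_option autoImplicit false

namespace Pool.Agent.Q33.CG

/-- the curve `y² = x³ - 432 A²` -/
def wcurve (A : ℤ) : WeierstrassCurve ℚ := ⟨0, 0, 0, 0, -432 * (A : ℚ) ^ 2⟩

open Classical in
/-- the point of `y² = x³ - 432 A²` which corresponds to the point `(X, Y)` of `X³ + Y³ = A` -/
noncomputable def toPoint (A : ℤ) (P : ℚ × ℚ) : (wcurve A).toAffine.Point :=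
  if h : (wcurve A).toAffine.Nonsingular (12 * A / (P.1 + P.2)) (36 * A * (P.1 - P.2) / (P.1 + P.2))
  then .some _ _ h else 0

/-- `S` is a set of generators -/
def Gens (A : ℤ) (S : Set (ℚ × ℚ)) : Prop :=
  (∀ P ∈ S, P.1 ^ 3 + P.2 ^ 3 = A) ∧ AddSubgroup.closure (toPoint A '' S) = ⊤

/-- the least number of generators -/
noncomputable def rk (A : ℤ) : ℕ :=
  sInf {n | ∃ S : Finset (ℚ × ℚ), S.card = n ∧ Gens A (S : Set (ℚ × ℚ))}

theorem eqn_iff (A : ℤ) (x y : ℚ) : (wcurve A).toAffine.Equation x y ↔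
    y ^ 2 = x ^ 3 - 432 * (A : ℚ) ^ 2 := by
  rw [WeierstrassCurve.Affine.equation_iff]
  simp only [wcurve]
  constructor <;> intro h <;> linear_combination h

theorem delta_ne {A : ℤ} (hA : A ≠ 0) : (wcurve A).Δ ≠ 0 := by
  have hAq : (A : ℚ) ≠ 0 := by exact_mod_cast hA
  have e : (wcurve A).Δ = -432 * (-432 * (A : ℚ) ^ 2) ^ 2 := by
    simp only [wcurve, WeierstrassCurve.Δ, WeierstrassCurve.b₂, WeierstrassCurve.b₄,
      WeierstrassCurve.b₆, WeierstrassCurve.b₈]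
    ring
  rw [e]
  exact mul_ne_zero (by norm_num) (pow_ne_zero 2 (mul_ne_zero (by norm_num) (pow_ne_zero 2 hAq)))

theorem nons_iff {A : ℤ} (hA : A ≠ 0) (x y : ℚ) : (wcurve A).toAffine.Nonsingular x y ↔
    y ^ 2 = x ^ 3 - 432 * (A : ℚ) ^ 2 := by
  rw [← eqn_iff]
  exact (WeierstrassCurve.Affine.equation_iff_nonsingular_of_Δ_ne_zero (delta_ne hA)).symm

theorem sum_ne {A : ℤ} (hA : A ≠ 0) {X Y : ℚ} (h : X ^ 3 + Y ^ 3 = A) : X + Y ≠ 0 := by
  intro h0
  apply hA
  have h1 : (A : ℚ) = 0 := by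
    rw [← h, show Y = -X by linarith]
    ring
  exact_mod_cast h1

theorem nons_of {A : ℤ} (hA : A ≠ 0) {X Y : ℚ} (h : X ^ 3 + Y ^ 3 = A) :
    (wcurve A).toAffine.Nonsingular (12 * A / (X + Y)) (36 * A * (X - Y) / (X + Y)) := by
  rw [nons_iff hA]
  have h0 := sum_ne hA h
  rw [div_pow, div_pow, div_eq_iff (pow_ne_zero 2 h0), sub_mul, div_mul_eq_mul_div,
    eq_sub_iff_add_eq, eq_div_iff (pow_ne_zero 3 h0)]
  rw [← h]
  ring

theorem toPoint_eq {A : ℤ} (hA : A ≠ 0) {X Y : ℚ} (h : X ^ 3 + Y ^ 3 = A) :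
    toPoint A (X, Y) = .some _ _ (nons_of hA h) := by
  unfold toPoint
  exact dif_pos (nons_of hA h)

/-- every point except the zero point comes from exactly one point of `X³ + Y³ = A` -/
theorem exists_of_point {A : ℤ} (hA : A ≠ 0) (P : (wcurve A).toAffine.Point) (hP : P ≠ 0) :
    ∃ X Y : ℚ, X ^ 3 + Y ^ 3 = A ∧ toPoint A (X, Y) = P := by
  have hAq : (A : ℚ) ≠ 0 := by exact_mod_cast hA
  match P, hP with
  | 0, hP => exact absurd rfl hP
  | .some x y hn, _ =>
    have h1 := (nons_iff hA x y).1 hn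
    have hx : x ≠ 0 := by
      rintro rfl
      have h2 : 0 < (A : ℚ) ^ 2 := by positivity
      nlinarith [sq_nonneg y]
    have hsol : ((36 * A + y) / (6 * x)) ^ 3 + ((36 * A - y) / (6 * x)) ^ 3 = A := by
      rw [div_pow, div_pow, ← add_div, div_eq_iff (by positivity)]
      linear_combination (216 * (A : ℚ)) * h1
    refine ⟨_, _, hsol, ?_⟩
    rw [toPoint_eq hA hsol]
    have e1 : (36 * (A : ℚ) + y) / (6 * x) + (36 * A - y) / (6 * x) = 12 * A / x := by
      field_simp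
      ring
    have e2 : (36 * (A : ℚ) + y) / (6 * x) - (36 * A - y) / (6 * x) = y / (3 * x) := by
      field_simp
      ring
    have e3 : 12 * (A : ℚ) / (12 * A / x) = x := by
      field_simp
    have e4 : 36 * (A : ℚ) * (y / (3 * x)) / (12 * A / x) = y := by
      field_simp
      ring
    rw [WeierstrassCurve.Affine.Point.some.injEq]
    rw [e1, e2]
    exact ⟨e3, e4⟩

theorem toPoint_ne {A : ℤ} (hA : A ≠ 0) {X Y : ℚ} (h : X ^ 3 + Y ^ 3 = A) : toPoint A (X, Y) ≠ 0 := by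
  rw [toPoint_eq hA h]
  exact WeierstrassCurve.Affine.Point.some_ne_zero _

/-- no points -/
theorem gens_empty {A : ℤ} (hA : A ≠ 0) (h : ∀ X Y : ℚ, X ^ 3 + Y ^ 3 ≠ A) :
    Gens A ∅ ∧ rk A = 0 := by
  have h1 : Gens A ∅ := by
    refine ⟨fun P hP => absurd hP (Set.notMem_empty P), ?_⟩
    rw [Set.image_empty, AddSubgroup.closure_empty]
    rw [eq_comm, AddSubgroup.eq_bot_iff_forall]
    intro P _
    by_contra hP
    obtain ⟨X, Y, h1, -⟩ := exists_of_point hA P hP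
    exact h X Y h1
  refine ⟨h1, ?_⟩
  unfold rk
  rw [Nat.sInf_eq_zero]
  exact Or.inl ⟨∅, rfl, by simpa using h1⟩

/-- one generator -/
theorem gens_single {A : ℤ} (hA : A ≠ 0) {X Y : ℚ} (h : X ^ 3 + Y ^ 3 = A)
    (hall : ∀ X' Y' : ℚ, X' ^ 3 + Y' ^ 3 = A → (X' = X ∧ Y' = Y) ∨ (X' = Y ∧ Y' = X)) :
    Gens A {(X, Y)} ∧ rk A = 1 := by
  have h1 : Gens A {(X, Y)} := by
    refine ⟨fun P hP => by rw [Set.mem_singleton_iff.1 hP]; exact h, ?_⟩
    rw [Set.image_singleton, eq_top_iff]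
    intro P _
    by_cases hP : P = 0
    · rw [hP]; exact zero_mem _
    obtain ⟨X', Y', h2, h3⟩ := exists_of_point hA P hP
    rcases hall X' Y' h2 with ⟨rfl, rfl⟩ | ⟨rfl, rfl⟩
    · rw [← h3]
      exact AddSubgroup.subset_closure rfl
    · have h4 : P = -toPoint A (Y', X') := by
        rw [← h3, toPoint_eq hA h2, toPoint_eq hA h, WeierstrassCurve.Affine.Point.neg_some,
          WeierstrassCurve.Affine.Point.some.injEq]
        refine ⟨by rw [add_comm], ?_⟩
        simp only [WeierstrassCurve.Affine.negY, wcurve]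
        rw [add_comm Y' X']
        ring
      rw [h4]
      exact neg_mem (AddSubgroup.subset_closure rfl)
  refine ⟨h1, ?_⟩
  have h2 : (1 : ℕ) ∈ {n | ∃ S : Finset (ℚ × ℚ), S.card = n ∧ Gens A (S : Set (ℚ × ℚ))} :=
    ⟨{(X, Y)}, Finset.card_singleton _, by simpa using h1⟩
  have h3 : rk A ≤ 1 := Nat.sInf_le h2
  have h4 : rk A ≠ 0 := by
    intro h0
    have h5 := Nat.sInf_mem ⟨_, h2⟩
    change rk A ∈ _ at h5
    rw [h0] at h5
    obtain ⟨S, hS, h6⟩ := h5
    rw [Finset.card_eq_zero] at hS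
    rw [hS] at h6
    have h7 := h6.2
    rw [Finset.coe_empty, Set.image_empty, AddSubgroup.closure_empty] at h7
    have h8 : toPoint A (X, Y) ∈ (⊥ : AddSubgroup (wcurve A).toAffine.Point) := by
      rw [h7]; trivial
    exact toPoint_ne hA h (AddSubgroup.mem_bot.1 h8)
  omega

end Pool.Agent.Q33.CG
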