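import Pool.Agent.Q33.CG.Grow
import Mathlib.NumberTheory.FLT.Three

/-!
# The rational solutions of `X ^ 3 + Y ^ 3 = A` when there are finitely many
-/

set_option autoImplicit false

namespace Pool.Agent.Q33.CG

/-- if there are only finitely many solutions, they are trivial -/
theorem triv_of_finite {D : ℤ} (hD : D ≠ 0) (hcf : ∀ p : ℕ, p.Prime → ¬ ((p : ℤ) ^ 3 ∣ D))
    (hfin : {P : ℚ × ℚ | P.1 ^ 3 + P.2 ^ 3 = D}.Finite) {X Y : ℚ} (h : X ^ 3 + Y ^ 3 = D) :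
    X = 0 ∨ Y = 0 ∨ X = Y := by
  by_contra hcon
  push Not at hcon
  obtain ⟨S, hS⟩ : ∃ S : Set (ℚ × ℚ), S = {P : ℚ × ℚ | P.1 ^ 3 + P.2 ^ 3 = (D : ℚ) ∧ P.1 ≠ 0 ∧
    P.2 ≠ 0 ∧ P.1 ≠ P.2} := ⟨_, rfl⟩
  have hSfin : S.Finite := by
    rw [hS]
    exact hfin.subset fun P hP => hP.1
  have hSne : S.Nonempty := ⟨(X, Y), by rw [hS]; exact ⟨h, hcon.1, hcon.2.1, hcon.2.2⟩⟩
  obtain ⟨P, hP, hmax⟩ := Set.exists_max_image S (fun P => P.1.den) hSfin hSne
  rw [hS] at hP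
  obtain ⟨h1, h2, h3, h4⟩ := hP
  obtain ⟨X', Y', a1, a2, a3, a4, a5⟩ := grow hD hcf h1 h2 h3 h4
  have := hmax (X', Y') (by rw [hS]; exact ⟨a1, a2, a3, a4⟩)
  exact absurd this (not_le.2 a5)

/-- a rational number whose cube is an integer is an integer -/
theorem int_of_cube {X : ℚ} {D : ℤ} (h : X ^ 3 = D) : ∃ x : ℤ, X = x := by
  have h1 : (X ^ 3).den = 1 := by rw [h]; exact Rat.den_intCast D
  rw [Rat.den_pow] at h1
  have h2 : X.den = 1 := by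
    by_contra hne
    exact absurd h1 (by simp [hne])
  exact ⟨X.num, (Rat.den_eq_one_iff X).1 h2 |>.symm⟩

/-- a positive integer without cubic factors which is a cube is `1` -/
theorem one_of_cube {D : ℕ} (hcf : ∀ p : ℕ, p.Prime → ¬ (p ^ 3 ∣ D)) {x : ℤ} (h : x ^ 3 = D) :
    x = 1 := by
  have h1 : x.natAbs ^ 3 = D := by
    have := congrArg Int.natAbs h
    rwa [Int.natAbs_pow, Int.natAbs_natCast] at this
  have h2 : x.natAbs = 1 := by
    by_contra hne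
    obtain ⟨p, hp, hpd⟩ := Nat.exists_prime_and_dvd hne
    exact hcf p hp (by rw [← h1]; exact pow_dvd_pow_of_dvd hpd 3)
  have h3 : 0 ≤ x := by
    by_contra hneg
    push Not at hneg
    have : x ^ 3 < 0 := by
      have h5 : x ^ 3 = x * x ^ 2 := by ring
      have h6 : 0 < x ^ 2 := by nlinarith
      rw [h5]
      exact mul_neg_of_neg_of_pos hneg h6
    have h4 : (0 : ℤ) ≤ D := Int.natCast_nonneg D
    omega
  omega

/-- `2 X ^ 3 = D` for `D` without cubic factors -/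
theorem two_of_cube {D : ℕ} (hcf : ∀ p : ℕ, p.Prime → ¬ (p ^ 3 ∣ D)) {X : ℚ}
    (h : 2 * X ^ 3 = (D : ℤ)) : X = 1 ∧ D = 2 := by
  have h0 : (2 * X) ^ 3 = ((4 * D : ℤ) : ℚ) := by
    push_cast
    push_cast at h
    linear_combination 4 * h
  obtain ⟨t, ht⟩ := int_of_cube h0
  have h1 : t ^ 3 = 4 * D := by
    rw [ht] at h0
    exact_mod_cast h0
  have h2 : (2 : ℤ) ∣ t := by
    have : (2 : ℤ) ∣ t ^ 3 := by rw [h1]; exact ⟨2 * D, by ring⟩
    exact Int.prime_two.dvd_of_dvd_pow this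
  obtain ⟨x, rfl⟩ := h2
  have h3 : X = x := by
    push_cast at ht
    linarith
  have h4 : 2 * x ^ 3 = D := by
    have : (2 * x) ^ 3 = 8 * x ^ 3 := by ring
    rw [this] at h1
    omega
  have h5 : x.natAbs = 1 := by
    by_contra hne
    obtain ⟨p, hp, hpd⟩ := Nat.exists_prime_and_dvd hne
    apply hcf p hp
    have h6 : ((p : ℤ)) ^ 3 ∣ D := by
      rw [← h4]
      exact (pow_dvd_pow_of_dvd (Int.natCast_dvd.2 hpd) 3).mul_left 2
    exact_mod_cast h6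
  have h7 : x = 1 := by
    rcases Int.natAbs_eq x with h8 | h8
    · rw [h8, h5]; rfl
    · exfalso
      rw [h5] at h8
      rw [h8] at h4
      norm_num at h4
      omega
  rw [h7] at h3 h4
  refine ⟨by rw [h3]; norm_num, ?_⟩
  norm_num at h4
  exact_mod_cast h4.symm

/-- no solutions for `D` without cubic factors, `D > 2` -/
theorem none_of_finite {D : ℕ} (hD : D ≠ 0) (h1 : D ≠ 1) (h2 : D ≠ 2)
    (hcf : ∀ p : ℕ, p.Prime → ¬ (p ^ 3 ∣ D))
    (hfin : {P : ℚ × ℚ | P.1 ^ 3 + P.2 ^ 3 = D}.Finite) (X Y : ℚ) : X ^ 3 + Y ^ 3 ≠ D := by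
  intro h
  have hD' : (D : ℤ) ≠ 0 := by exact_mod_cast hD
  have hcf' : ∀ p : ℕ, p.Prime → ¬ ((p : ℤ) ^ 3 ∣ (D : ℤ)) := fun p hp hd =>
    hcf p hp (by exact_mod_cast hd)
  have hz : ((D : ℤ) : ℚ) = (D : ℚ) := by push_cast; rfl
  rcases triv_of_finite hD' hcf' (by rw [hz]; exact hfin) (X := X) (Y := Y) (by rw [hz]; exact h)
    with h3 | h3 | h3
  · rw [h3] at h
    have h4 : Y ^ 3 = ((D : ℤ) : ℚ) := by rw [hz]; linarith
    obtain ⟨y, hy⟩ := int_of_cube h4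
    have h5 : y ^ 3 = (D : ℤ) := by
      rw [hy] at h4
      exact_mod_cast h4
    rw [one_of_cube hcf h5] at h5
    apply h1
    have : (D : ℤ) = 1 := by linarith
    exact_mod_cast this
  · rw [h3] at h
    have h4 : X ^ 3 = ((D : ℤ) : ℚ) := by rw [hz]; linarith
    obtain ⟨y, hy⟩ := int_of_cube h4
    have h5 : y ^ 3 = (D : ℤ) := by
      rw [hy] at h4
      exact_mod_cast h4
    rw [one_of_cube hcf h5] at h5
    apply h1
    have : (D : ℤ) = 1 := by linarith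
    exact_mod_cast this
  · rw [h3] at h
    exact h2 (two_of_cube hcf (X := Y) (by rw [hz]; linarith)).2

/-- the solutions for `D = 2` -/
theorem sol_two (hfin : {P : ℚ × ℚ | P.1 ^ 3 + P.2 ^ 3 = (2 : ℕ)}.Finite) {X Y : ℚ}
    (h : X ^ 3 + Y ^ 3 = 2) : X = 1 ∧ Y = 1 := by
  have hcf : ∀ p : ℕ, p.Prime → ¬ (p ^ 3 ∣ 2) := by
    intro p hp hd
    have h3 := Nat.le_of_dvd (by norm_num) hd
    have h4 : 2 ^ 3 ≤ p ^ 3 := Nat.pow_le_pow_left hp.two_le 3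
    omega
  have hcf' : ∀ p : ℕ, p.Prime → ¬ ((p : ℤ) ^ 3 ∣ ((2 : ℕ) : ℤ)) := fun p hp hd =>
    hcf p hp (by exact_mod_cast hd)
  have hz : (((2 : ℕ) : ℤ) : ℚ) = ((2 : ℕ) : ℚ) := by norm_num
  have hz2 : ((2 : ℕ) : ℚ) = 2 := by norm_num
  rcases triv_of_finite (D := ((2 : ℕ) : ℤ)) (by norm_num) hcf' (by rw [hz]; exact hfin) (X := X)
    (Y := Y) (by rw [hz, hz2]; exact h) with h3 | h3 | h3
  · rw [h3] at h
    have h4 : Y ^ 3 = (((2 : ℕ) : ℤ) : ℚ) := by rw [hz, hz2]; linarith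
    obtain ⟨y, hy⟩ := int_of_cube h4
    have h5 : y ^ 3 = ((2 : ℕ) : ℤ) := by
      rw [hy] at h4
      exact_mod_cast h4
    rw [one_of_cube hcf h5] at h5
    norm_num at h5
  · rw [h3] at h
    have h4 : X ^ 3 = (((2 : ℕ) : ℤ) : ℚ) := by rw [hz, hz2]; linarith
    obtain ⟨y, hy⟩ := int_of_cube h4
    have h5 : y ^ 3 = ((2 : ℕ) : ℤ) := by
      rw [hy] at h4
      exact_mod_cast h4
    rw [one_of_cube hcf h5] at h5
    norm_num at h5
  · rw [h3] at h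
    have h4 := (two_of_cube hcf (X := Y) (by rw [hz, hz2]; linarith)).1
    exact ⟨h3.trans h4, h4⟩

/-- the solutions for `D = 1` (Euler, Fermat's Last Theorem for the exponent `3`) -/
theorem sol_one {X Y : ℚ} (h : X ^ 3 + Y ^ 3 = 1) : (X = 1 ∧ Y = 0) ∨ (X = 0 ∧ Y = 1) := by
  have hQ : FermatLastTheoremWith ℚ 3 := (fermatLastTheoremFor_iff_rat (n := 3)).1 fermatLastTheoremThree
  have cube1 : ∀ Z : ℚ, Z ^ 3 = 1 → Z = 1 := by
    intro Z hZ
    have h4 : Z ^ 3 = (((1 : ℕ) : ℤ) : ℚ) := by rw [hZ]; norm_num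
    obtain ⟨y, hy⟩ := int_of_cube h4
    have h5 : y ^ 3 = ((1 : ℕ) : ℤ) := by
      rw [hy] at h4
      exact_mod_cast h4
    have hcf : ∀ p : ℕ, p.Prime → ¬ (p ^ 3 ∣ 1) := by
      intro p hp hd
      have h3 := Nat.le_of_dvd (by norm_num) hd
      have h4 : 2 ^ 3 ≤ p ^ 3 := Nat.pow_le_pow_left hp.two_le 3
      omega
    rw [hy, one_of_cube hcf h5]
    norm_num
  by_cases hX : X = 0
  · rw [hX] at h
    exact Or.inr ⟨hX, cube1 Y (by linarith)⟩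
  by_cases hY : Y = 0
  · rw [hY] at h
    exact Or.inl ⟨cube1 X (by linarith), hY⟩
  exact absurd (by rw [h, one_pow]) (hQ X Y 1 hX hY one_ne_zero)

end Pool.Agent.Q33.CG
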